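import Mathlib
import Pool.Agent.H53.DiF

open MeasureTheory Set Filter Matrix

namespace Pool.Agent.Results.MP_0b7119_mp.NotConcave

/-- `ψ` lies in `H¹(ℝ, ℂ²)` with derivative `g`. -/
def IsH1 (ψ g : ℝ → (Fin 2 → ℂ)) : Prop :=
  MemLp ψ 2 volume ∧ MemLp g 2 volume ∧ ∀ x y : ℝ, ψ y - ψ x = ∫ s in x..y, g s

/-- `lam` is an eigenvalue of `α (-i ∂) + m β - V` on `H¹(ℝ, ℂ²)`. -/
def IsEig (α β : Matrix (Fin 2) (Fin 2) ℂ) (m : ℝ) (V : ℝ → ℝ) (lam : ℝ) : Prop :=
  ∃ ψ g : ℝ → (Fin 2 → ℂ), IsH1 ψ g ∧ ψ ≠ 0 ∧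
    ∀ᵐ x : ℝ, α *ᵥ ((-Complex.I) • g x) + (m : ℂ) • (β *ᵥ ψ x) - (V x : ℂ) • ψ x
      = (lam : ℂ) • ψ x

/-- The lowest eigenvalue in the gap `(-m, m)`, and `m` if there is none. -/
noncomputable def lamD (α β : Matrix (Fin 2) (Fin 2) ℂ) (m : ℝ) (V : ℝ → ℝ) : ℝ :=
  sInf ({lam | lam ∈ Ioo (-m) m ∧ IsEig α β m V lam} ∪ {m})

/-- Bounded continuous nonnegative potentials in `L^p(ℝ)`. -/
def Pot (p : ℝ) (V : ℝ → ℝ) : Prop :=
  Continuous V ∧ (∀ x, 0 ≤ V x) ∧ (∃ C, ∀ x, V x ≤ C) ∧ Integrable (fun x => V x ^ p)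

/-- The `L^p` norm of a nonnegative potential. -/
noncomputable def nrm (p : ℝ) (V : ℝ → ℝ) : ℝ := (∫ x, V x ^ p) ^ (1 / p)

/-- The explicit critical norm in dimension one (equal to `π` for `p = 1`). -/
noncomputable def alphaStar (m p : ℝ) : ℝ :=
  (p ^ p * (2 * m / (p - 1)) ^ (p - 1) * ∫ y : ℝ, (1 + y ^ 2) ^ (-p)) ^ (1 / p)

open Pool.Agent.H53.Di

theorem bdd (α β : Matrix (Fin 2) (Fin 2) ℂ) {m : ℝ} (hm : 0 < m) (V : ℝ → ℝ) :
    ∀ x ∈ ({lam | lam ∈ Ioo (-m) m ∧ IsEig α β m V lam} ∪ {m} : Set ℝ), -m ≤ x := by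
  rintro x (hx | hx)
  · exact hx.1.1.le
  · rw [mem_singleton_iff.1 hx]; linarith

theorem lamD_ge (α β : Matrix (Fin 2) (Fin 2) ℂ) {m : ℝ} (hm : 0 < m) (V : ℝ → ℝ) :
    -m ≤ lamD α β m V :=
  le_csInf ⟨m, Or.inr rfl⟩ (bdd α β hm V)

theorem lamD_le (α β : Matrix (Fin 2) (Fin 2) ℂ) {m : ℝ} (hm : 0 < m) (V : ℝ → ℝ) {lam : ℝ}
    (h1 : lam ∈ Ioo (-m) m) (h2 : IsEig α β m V lam) : lamD α β m V ≤ lam :=
  csInf_le ⟨-m, bdd α β hm V⟩ (Or.inl ⟨h1, h2⟩)

theorem eig_ode {α β : Matrix (Fin 2) (Fin 2) ℂ} (hαα : α * α = 1)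
    (hαβ : α * β + β * α = 0) (hββ : β * β = 1) {m lam : ℝ} {V : ℝ → ℝ} (hV : Continuous V)
    (h : IsEig α β m V lam) : ∃ J B : (Fin 2 → ℂ) →L[ℝ] (Fin 2 → ℂ),
      (∀ w, J (J w) = -w) ∧ (∀ w, J (B w) = -B (J w)) ∧ (∀ w, B (B w) = w) ∧
      ∃ ψ : ℝ → (Fin 2 → ℂ), ψ ≠ 0 ∧ MemLp ψ 2 volume ∧
        ∀ x, HasDerivAt ψ (J ((lam + V x) • ψ x - m • B (ψ x))) x := by
  obtain ⟨ψ, g, ⟨hψ, hg, hint⟩, hne, heq⟩ := h
  let J : (Fin 2 → ℂ) →L[ℝ] (Fin 2 → ℂ) :=
    (LinearMap.toContinuousLinearMap (Matrix.mulVecLin (Complex.I • α))).restrictScalars ℝ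
  let B : (Fin 2 → ℂ) →L[ℝ] (Fin 2 → ℂ) :=
    (LinearMap.toContinuousLinearMap (Matrix.mulVecLin β)).restrictScalars ℝ
  have hJ : ∀ w, J w = (Complex.I • α) *ᵥ w := fun w => rfl
  have hB : ∀ w, B w = β *ᵥ w := fun w => rfl
  have hαβ' : α * β = -(β * α) := eq_neg_of_add_eq_zero_left hαβ
  refine ⟨J, B, fun w => ?_, fun w => ?_, fun w => ?_, ψ, hne, hψ, ?_⟩
  · rw [hJ, hJ, Matrix.mulVec_mulVec, Matrix.smul_mul, Matrix.mul_smul, smul_smul, hαα,
      Complex.I_mul_I, Matrix.smul_mulVec, Matrix.one_mulVec]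
    simp
  · rw [hJ, hB, hJ, hB, Matrix.mulVec_mulVec, Matrix.mulVec_mulVec, Matrix.smul_mul,
      Matrix.mul_smul, hαβ', smul_neg, Matrix.neg_mulVec]
  · rw [hB, hB, Matrix.mulVec_mulVec, hββ, Matrix.one_mulVec]
  have hgA : ∀ᵐ x : ℝ, g x = J ((lam + V x) • ψ x - m • B (ψ x)) := by
    filter_upwards [heq] with x hx
    have h2 : (lam + V x) • ψ x - m • B (ψ x) = α *ᵥ ((-Complex.I) • g x) := by
      rw [hB, add_smul, ← Complex.coe_smul lam, ← Complex.coe_smul (V x), ← Complex.coe_smul m,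
        ← hx]
      abel
    rw [h2, hJ, Matrix.mulVec_mulVec, Matrix.smul_mul, hαα, Matrix.smul_mulVec,
      Matrix.one_mulVec, smul_smul]
    simp
  have hgi : ∀ a b, IntervalIntegrable g volume a b := fun a b =>
    ((hg.locallyIntegrable (by norm_num)).integrableOn_isCompact isCompact_uIcc).intervalIntegrable
  have hψe : ψ = fun y => ψ 0 + ∫ s in (0 : ℝ)..y, g s := by
    funext y; rw [← hint 0 y]; abel
  have hψc : Continuous ψ := by
    rw [hψe]
    exact continuous_const.add (intervalIntegral.continuous_primitive hgi 0)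
  have hLc : Continuous fun x => J ((lam + V x) • ψ x - m • B (ψ x)) := by fun_prop
  intro y
  have h2 : ψ = fun y => ψ 0 + ∫ x in (0 : ℝ)..y, J ((lam + V x) • ψ x - m • B (ψ x)) := by
    funext y
    rw [intervalIntegral.integral_congr_ae (g := g) (hgA.mono fun x hx _ => hx.symm),
      ← hint 0 y]
    abel
  have h3 := (intervalIntegral.integral_hasDerivAt_right (hLc.intervalIntegrable 0 y)
    (hLc.stronglyMeasurableAtFilter _ _) hLc.continuousAt).const_add (ψ 0)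
  rwa [← h2] at h3

theorem lamD_ge_of {α β : Matrix (Fin 2) (Fin 2) ℂ} {m c : ℝ} {V : ℝ → ℝ}
    (h : ∀ lam, -m < lam → lam < c → ¬ IsEig α β m V lam) : min c m ≤ lamD α β m V := by
  refine le_csInf ⟨m, Or.inr rfl⟩ ?_
  rintro x (hx | hx)
  · exact (min_le_left _ _).trans (not_lt.1 fun h1 => h x hx.1.1 h1 hx.2)
  · rw [mem_singleton_iff.1 hx]; exact min_le_right _ _

theorem exists_e {α β : Matrix (Fin 2) (Fin 2) ℂ} (hαα : α * α = 1)
    (hαβ : α * β + β * α = 0) (hββ : β * β = 1) : ∃ e : Fin 2 → ℂ, e ≠ 0 ∧ β *ᵥ e = e := by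
  by_contra hcon
  push Not at hcon
  have h1 : ∀ w, (1 + β) *ᵥ w = 0 := by
    intro w
    by_contra hw
    apply hcon _ hw
    rw [Matrix.mulVec_mulVec, Matrix.mul_add, Matrix.mul_one, hββ, add_comm]
  have h2 : (1 + β) = 0 := by
    ext i j
    have := congrFun (h1 (Pi.single j 1)) i
    simpa using this
  have h3 : β = -1 := eq_neg_of_add_eq_zero_right h2
  rw [h3] at hαβ
  have h4 : α = 0 := by
    ext i j
    have := congrFun (congrFun hαβ i) j
    simp at this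
    exact this
  rw [h4] at hαα
  have := congrFun (congrFun hαα 0) 0
  simp at this

theorem memLp_comb {a b : ℝ → ℝ} (ha : MemLp a 2 volume) (hb : MemLp b 2 volume)
    (e f : Fin 2 → ℂ) : MemLp (fun x => a x • e + b x • f) 2 volume :=
  (((ContinuousLinearMap.id ℝ ℝ).smulRight e).comp_memLp' ha).add
    (((ContinuousLinearMap.id ℝ ℝ).smulRight f).comp_memLp' hb)

theorem soliton {α β : Matrix (Fin 2) (Fin 2) ℂ} (hαα : α * α = 1)
    (hαβ : α * β + β * α = 0) (hββ : β * β = 1) {τ k b κ m lam : ℝ} (hτ : 0 < τ) (hk : 0 < k)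
    (hκ : 0 < κ) (hb : 2 * b * k = κ + k) (h1 : τ * (m + lam) = κ) (h2 : m - lam = τ * κ) :
    IsEig α β m (fun x => τ * (k + κ) / G τ k x) lam := by
  obtain ⟨e, he0, he⟩ := exists_e hαα hαβ hββ
  set f : Fin 2 → ℂ := (-Complex.I) • (α *ᵥ e) with hf
  have hβα : β * α = -(α * β) := eq_neg_of_add_eq_zero_right hαβ
  have hβf : β *ᵥ f = -f := by
    rw [hf, Matrix.mulVec_smul, Matrix.mulVec_mulVec, hβα, Matrix.neg_mulVec,
      ← Matrix.mulVec_mulVec, he, smul_neg]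
  have hαf : α *ᵥ f = (-Complex.I) • e := by
    rw [hf, Matrix.mulVec_smul, Matrix.mulVec_mulVec, hαα, Matrix.one_mulVec]
  have hαe : α *ᵥ e = Complex.I • f := by
    rw [hf, smul_smul]; simp
  set U : ℝ → ℝ := fun x => τ * (k + κ) / G τ k x with hU
  have hUc : Continuous U := continuous_const.div (cont_G τ k) fun x => (G_pos τ k x).ne'
  have hU0 : ∀ x, 0 ≤ U x := fun x => by have := G_pos τ k x; positivity
  have hU1 : ∀ x, U x ≤ τ * (k + κ) := fun x =>
    div_le_self (by positivity) (one_le_G τ k x)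
  have huc : Continuous (uu τ k b) :=
    continuous_iff_continuousAt.2 fun x => (hd_uu hb h1 x).continuousAt
  have hvc : Continuous (vv τ k b) :=
    continuous_iff_continuousAt.2 fun x => (hd_vv hb h2 x).continuousAt
  have hsq := integrable_sq (τ := τ) hk hκ hb
  have hu : MemLp (uu τ k b) 2 volume := by
    rw [memLp_two_iff_integrable_sq huc.aestronglyMeasurable]
    refine hsq.mono' (huc.pow 2).aestronglyMeasurable (Eventually.of_forall fun x => ?_)
    rw [Real.norm_eq_abs, abs_of_nonneg (sq_nonneg _)]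
    nlinarith [sq_nonneg (vv τ k b x)]
  have hv : MemLp (vv τ k b) 2 volume := by
    rw [memLp_two_iff_integrable_sq hvc.aestronglyMeasurable]
    refine hsq.mono' (hvc.pow 2).aestronglyMeasurable (Eventually.of_forall fun x => ?_)
    rw [Real.norm_eq_abs, abs_of_nonneg (sq_nonneg _)]
    nlinarith [sq_nonneg (uu τ k b x)]
  have hu'c : Continuous fun x => (m + lam + U x) * vv τ k b x :=
    (continuous_const.add hUc).mul hvc
  have hv'c : Continuous fun x => (m - lam - U x) * uu τ k b x :=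
    (continuous_const.sub hUc).mul huc
  have hu' : MemLp (fun x => (m + lam + U x) * vv τ k b x) 2 volume := by
    refine hv.of_le_mul (c := |m + lam| + τ * (k + κ)) hu'c.aestronglyMeasurable
      (Eventually.of_forall fun x => ?_)
    rw [norm_mul]
    refine mul_le_mul_of_nonneg_right ?_ (norm_nonneg _)
    rw [Real.norm_eq_abs]
    refine (abs_add_le _ _).trans ?_
    rw [abs_of_nonneg (hU0 x)]
    linarith [hU1 x]
  have hv' : MemLp (fun x => (m - lam - U x) * uu τ k b x) 2 volume := by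
    refine hu.of_le_mul (c := |m - lam| + τ * (k + κ)) hv'c.aestronglyMeasurable
      (Eventually.of_forall fun x => ?_)
    rw [norm_mul]
    refine mul_le_mul_of_nonneg_right ?_ (norm_nonneg _)
    rw [Real.norm_eq_abs]
    refine (abs_sub _ _).trans ?_
    rw [abs_of_nonneg (hU0 x)]
    linarith [hU1 x]
  refine ⟨fun x => uu τ k b x • e + vv τ k b x • f,
    fun x => ((m + lam + U x) * vv τ k b x) • e + ((m - lam - U x) * uu τ k b x) • f,
    ⟨memLp_comb hu hv e f, memLp_comb hu' hv' e f, fun x y => ?_⟩, ?_, ?_⟩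
  · refine (intervalIntegral.integral_eq_sub_of_hasDerivAt
      (f := fun x => uu τ k b x • e + vv τ k b x • f) (fun z _ => ?_) ?_).symm
    · exact ((hd_uu hb h1 z).smul_const e).add ((hd_vv hb h2 z).smul_const f)
    · exact ((hu'c.smul continuous_const).add (hv'c.smul continuous_const)).intervalIntegrable _ _
  · intro h0
    have := congrFun h0 0
    simp [uu, vv, P, G] at this
    exact he0 this
  · refine Eventually.of_forall fun x => ?_
    simp only [← Complex.coe_smul, Matrix.mulVec_smul, Matrix.mulVec_add, he, hβf, hαf, hαe]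
    have hI : Complex.I * Complex.I = -1 := Complex.I_mul_I
    ext i
    simp only [Pi.add_apply, Pi.sub_apply, Pi.smul_apply, Pi.neg_apply, smul_eq_mul]
    push_cast
    linear_combination (-(((m : ℂ) + lam + U x) * vv τ k b x * f i)
      + ((m : ℂ) - lam - U x) * uu τ k b x * e i) * hI

theorem result (α β : Matrix (Fin 2) (Fin 2) ℂ) (_hα : α.IsHermitian) (_hβ : β.IsHermitian)
    (hαα : α * α = 1) (hαβ : α * β + β * α = 0) (hββ : β * β = 1) (m : ℝ) (hm : 0 < m)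
    (p : ℝ) (hp : 1 ≤ p) :
    (∀ a < alphaStar m p, ∃ c : ℝ, -m < c ∧
      ∀ V : ℝ → ℝ, Pot p V → nrm p V ≤ a → c ≤ lamD α β m V) ∧
    ∃ V W : ℝ → ℝ, Pot p V ∧ Pot p W ∧ nrm p V < alphaStar m p ∧ nrm p W < alphaStar m p ∧
      ∃ t ∈ Ioo (0 : ℝ) 1, lamD α β m (fun x => t * V x + (1 - t) * W x)
        < t * lamD α β m V + (1 - t) * lamD α β m W := by
  have hp0 : 0 < p := by linarith
  have hI := Ip_pos hp
  have hC0 : 0 < p ^ p * (2 * m / (p - 1)) ^ (p - 1) := by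
    rcases hp.eq_or_lt with h | h
    · subst h; simp
    · have : 0 < p - 1 := by linarith
      positivity
  have hinv : ∀ x : ℝ, 0 ≤ x → (x ^ (1 / p)) ^ p = x := fun x hx => by
    rw [← Real.rpow_mul hx, one_div_mul_cancel hp0.ne', Real.rpow_one]
  constructor
  · intro a ha
    have hS : 0 < p ^ p * (2 * m / (p - 1)) ^ (p - 1) * ∫ y : ℝ, (1 + y ^ 2) ^ (-p) :=
      mul_pos hC0 hI
    have ha' : max a 0 < alphaStar m p := max_lt ha (Real.rpow_pos_of_pos hS _)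
    have hA := Real.rpow_lt_rpow (le_max_right a 0) ha' hp0
    rw [alphaStar, hinv _ hS.le] at hA
    obtain ⟨η, hη, hk⟩ := keller hp hm hA
    refine ⟨min (-m + η) m, lt_min (by linarith) (by linarith), fun V hV hVa => ?_⟩
    obtain ⟨hVc, hV0, -, hVi⟩ := hV
    have hW0 : 0 ≤ ∫ x, V x ^ p := integral_nonneg fun x => Real.rpow_nonneg (hV0 x) _
    have hle : ∫ x, V x ^ p ≤ max a 0 ^ p := by
      rw [← hinv _ hW0]
      exact Real.rpow_le_rpow (Real.rpow_nonneg hW0 _) (hVa.trans (le_max_left _ _)) hp0.le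
    obtain ⟨r, r', R, hr, hR, hb⟩ := hk V hVc hV0 hVi hle
    refine lamD_ge_of fun lam h1 h2 h3 => ?_
    obtain ⟨J, B, hJJ, hJB, hBB, ψ, hne, hψ, hd⟩ := eig_ode hαα hαβ hββ hVc h3
    refine hne (funext (barrier_vec_r J B hJJ hJB hBB (δ := -m + η - lam) (by linarith) h1 hV0 hd
      hψ hr hR fun x => ?_))
    refine le_of_eq_of_le ?_ (hb x)
    ring
  set τ := Real.sqrt 3 with hτ
  have hτ0 : 0 < τ := Real.sqrt_pos.2 (by norm_num)
  have hτ2 : τ * τ = 3 := Real.mul_self_sqrt (by norm_num)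
  set κ := τ * m / 2 with hκ
  have hκ0 : 0 < κ := by positivity
  obtain ⟨k, hk0, hk⟩ := choose_k hτ2 hτ0 hm hκ hp
  have heig := soliton hαα hαβ hββ (τ := τ) (k := k) (b := (κ + k) / (2 * k)) (κ := κ) (m := m)
    (lam := -m / 2) hτ0 hk0 hκ0 (by field_simp) (by rw [hκ]; ring)
    (by rw [hκ]; linear_combination (-(m / 2)) * hτ2)
  obtain ⟨Z, hZc, hZ, δ, hδ, hφ⟩ := pert hτ2 hτ0 hk0 hm hκ
  set M : ℝ → ℝ := fun x => τ * (k + κ) / G τ k x with hM
  have hMc : Continuous M := continuous_const.div (cont_G τ k) fun x => (G_pos τ k x).ne'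
  have hM0 : ∀ x, 0 ≤ M x := fun x => by have := G_pos τ k x; positivity
  have key : ∀ σ : ℝ, σ = 1 ∨ σ = -1 → Pot p (fun x => M x + σ * Z x) ∧
      nrm p (fun x => M x + σ * Z x) < alphaStar m p ∧
      min (-m / 2 + δ) m ≤ lamD α β m (fun x => M x + σ * Z x) := by
    intro σ hσ
    have hc : Continuous fun x => M x + σ * Z x := by fun_prop
    have hZ' : ∀ x, |σ * Z x| ≤ M x / 10 := fun x => by
      rcases hσ with h | h <;> simpa [h] using hZ x
    have h0 : ∀ x, 0 ≤ M x + σ * Z x := fun x => by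
      linarith [neg_abs_le (σ * Z x), hZ' x, hM0 x]
    have h1 : ∀ x, M x + σ * Z x ≤ 11 / 10 * (τ * (k + κ)) / (1 + (2 * k * x) ^ 2) := fun x => by
      have h2 : M x ≤ τ * (k + κ) / (1 + (2 * k * x) ^ 2) :=
        div_le_div_of_nonneg_left (by positivity) (by positivity) (G_ge hτ2 k x)
      rw [mul_div_assoc]
      linarith [le_abs_self (σ * Z x), hZ' x]
    obtain ⟨hi1, hi2⟩ := norm_bound hp (by positivity) (by positivity : 0 < 2 * k) hc h0 h1
    refine ⟨⟨hc, h0, ⟨11 / 10 * (τ * (k + κ)), fun x => (h1 x).trans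
      (div_le_self (by positivity) (by nlinarith [sq_nonneg (2 * k * x)]))⟩, hi1⟩, ?_, ?_⟩
    · exact Real.rpow_lt_rpow (integral_nonneg fun x => Real.rpow_nonneg (h0 x) _)
        (hi2.trans_lt (mul_lt_mul_of_pos_right hk hI)) (by positivity)
    · obtain ⟨φ, φ', hφ1, hφ2, hφ3⟩ := hφ σ hσ
      refine lamD_ge_of fun lam h1 h2 h3 => ?_
      obtain ⟨J, B, hJJ, hJB, hBB, ψ, hne, hψ, hd⟩ := eig_ode hαα hαβ hββ hc h3
      refine hne (funext (barrier_vec J B hJJ hJB hBB (δ := -m / 2 + δ - lam) (by linarith) h1 h0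
        hd hψ hφ1 hφ2 fun x => ?_))
      refine le_of_eq_of_le ?_ (hφ3 x)
      simp only [hM]
      ring
  obtain ⟨a1, a2, a3⟩ := key 1 (Or.inl rfl)
  obtain ⟨b1, b2, b3⟩ := key (-1) (Or.inr rfl)
  refine ⟨_, _, a1, b1, a2, b2, 1 / 2, by norm_num, ?_⟩
  have e : (fun x => (1 / 2 : ℝ) * (M x + 1 * Z x) + (1 - 1 / 2) * (M x + -1 * Z x)) = M := by
    funext x; ring
  rw [e]
  have h1 := lamD_le α β hm M (lam := -m / 2) ⟨by linarith, by linarith⟩ heig
  have h2 : -m / 2 < min (-m / 2 + δ) m := lt_min (by linarith) (by linarith)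
  linarith

end Pool.Agent.Results.MP_0b7119_mp.NotConcave
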